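import Pool.Agent.AT5.Stmts1
import Pool.Agent.Helper20_PP.Nls
import Pool.Agent.Helper75_PP.Quo

/-!
# Squad AT5, row LNB: the number of modular characters of the local block
-/

open scoped BigOperators

noncomputable section

namespace Pool.Agent.PP.T5.H18

open Pool.Agent.Helper51_AWC Pool.Agent.Helper79_WRA Pool.Agent.PP Pool.Agent.PP.KF
open Pool.Agent.PP.K9 Pool.Agent.PP.K9.H97 Pool.Agent.PP.H75 Pool.Agent.PP.T3 Pool.Agent.PP.T2

attribute [local instance] Ideal.Quotient.field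

/-- LNB: the number of modular characters of the local block. -/
theorem lnb (psg : T3.PsgStmt) (kbf : KbfStmt) (lbx : LbxStmt) (pug : K9.PugStmt)
    (lbd : K9.LbdStmt) : LnbStmt := by
  intro ℓ hℓ M hMx hM G _ _ e V u b hb a n ha hV
  have hF : GoodF ℓ (FF M) := H50.fld ℓ hℓ.out M hM
  obtain ⟨htp, hcard⟩ := (lbx ℓ M hM G e V u hb.blk hb.tp hb.mem hb.cen).2 b hb
  have huC : u ∈ Cu u := by
    rw [Subgroup.mem_centralizer_iff]
    intro x hx
    rw [Set.mem_singleton_iff.1 hx]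
  have hz : ∀ x : Cu u, (⟨u, huC⟩ : Cu u) * x = x * ⟨u, huC⟩ := by
    intro x
    apply Subtype.ext
    have h1 := Subgroup.mem_centralizer_iff.1 x.2 u (Set.mem_singleton u)
    exact h1
  let N : Subgroup (Cu u) := Subgroup.zpowers (⟨u, huC⟩ : Cu u)
  have hNc : N ≤ Subgroup.center (Cu u) := by
    rw [Subgroup.zpowers_le, Subgroup.mem_center_iff]
    intro g
    exact (hz g).symm
  have hNn : N.Normal := by
    refine ⟨fun x hx g => ?_⟩
    have h1 := Subgroup.mem_center_iff.1 (hNc hx) g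
    rw [h1, mul_inv_cancel_right]
    exact hx
  have hNcard : Nat.card N = ℓ ^ a := by
    rw [Nat.card_zpowers, ← ha]
    exact Subgroup.orderOf_mk u huC
  let p : Cu u →* Cu u ⧸ N := QuotientGroup.mk' N
  have hp : Function.Surjective p := QuotientGroup.mk'_surjective N
  have hker : p.ker = N := QuotientGroup.ker_mk' N
  have hk : IsPGroup ℓ p.ker := by
    rw [hker]
    exact IsPGroup.of_card hNcard
  have hblk : IsBlk (push p (fun t : Cu u => b t)) :=
    psg ℓ (FF M) hF (Cu u) (Cu u ⧸ N) p hp (hker.le.trans hNc) hk _ hb.bx.blk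
  have hkV : p.ker ≤ V.subgroupOf (Cu u) := by
    rw [hker, Subgroup.zpowers_le, Subgroup.mem_subgroupOf]
    exact hb.mem
  have hcm : ((V.subgroupOf (Cu u)).map p).comap p = V.subgroupOf (Cu u) :=
    Subgroup.comap_map_eq_self hkV
  have hVc : Nat.card (V.subgroupOf (Cu u)) =
      Nat.card p.ker * Nat.card ((V.subgroupOf (Cu u)).map p) := by
    have h1 := card_comap hp ((V.subgroupOf (Cu u)).map p)
    rw [hcm] at h1
    exact h1
  have hkpos : 0 < Nat.card p.ker := Nat.card_pos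
  have htp' : Tp ℓ (push p (fun t : Cu u => b t)) ((V.subgroupOf (Cu u)).map p) := by
    refine ⟨htp.pg.map p, ?_, ?_⟩
    · exact (pug ℓ (FF M) hF (Cu u) (Cu u ⧸ N) p hp hk _ hb.bx.blk.1 _ hkV htp.pg).1 htp.gd
    · intro Q hQ hg
      have h1 : IsPGroup ℓ (Q.comap p) := (isPGroup_comap_iff hp hk Q).2 hQ
      have h2 : (Q.comap p).map p = Q := Subgroup.map_comap_eq_self_of_surjective hp Q
      have h3 : Gd (fun t : Cu u => b t) (Q.comap p) := by
        refine (pug ℓ (FF M) hF (Cu u) (Cu u ⧸ N) p hp hk _ hb.bx.blk.1 _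
          (Subgroup.ker_le_comap p Q) h1).2 ?_
        rw [h2]
        exact hg
      have h4 := htp.mx _ h1 h3
      rw [card_comap hp, hVc] at h4
      exact Nat.le_of_mul_le_mul_left h4 hkpos
  have e1 : ln (fun t : Cu u => b t) = ln (push p (fun t : Cu u => b t)) :=
    cnt_push H20.nls hF hp hk _
  have e2 : ln (push p (fun t : Cu u => b t)) ≤ (IrrE M (push p (fun t : Cu u => b t))).ncard :=
    (lbd ℓ M hM (Cu u ⧸ N) _ hblk.1 hblk.2.1).2
  have e3 := kbf ℓ M hM (Cu u ⧸ N) _ hblk _ htp'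
  have e4 : Nat.card ((V.subgroupOf (Cu u)).map p) ≤ ℓ ^ n := by
    rw [hcard, hker, hNcard] at hVc
    rw [hVc, pow_add] at hV
    exact Nat.le_of_mul_le_mul_left hV (pow_pos hℓ.out.pos _)
  calc ln (fun t : Cu u => b t) ≤ Nat.card ((V.subgroupOf (Cu u)).map p) ^ 2 := by
        rw [e1]
        exact e2.trans e3
    _ ≤ (ℓ ^ n) ^ 2 := Nat.pow_le_pow_left e4 2
    _ = ℓ ^ (2 * n) := by rw [← pow_mul, mul_comm]

end Pool.Agent.PP.T5.H18
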