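import Pool.Agent.AT5.Stmts2
import Pool.Agent.Helper97_K9.NZA
import Pool.Agent.Helper20_PP.Nls
import Pool.Agent.Helper75_PP.Quo
import Pool.Agent.Helper75_PP.Blk

/-!
# Squad AT5, row ZPT: an invertible class function is not zero at an element of `C(δ)` with
`ℓ`-part in `Z(δ)`
-/

open scoped BigOperators

noncomputable section

namespace Pool.Agent.PP.T5.H18Z

open Pool.Agent.Helper51_AWC Pool.Agent.Helper79_WRA Pool.Agent.PP Pool.Agent.PP.KF
open Pool.Agent.PP.K9 Pool.Agent.PP.K9.H97 Pool.Agent.PP.H75 Pool.Agent.PP.T3 Pool.Agent.PP.T2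

attribute [local instance] Ideal.Quotient.field

/-- the `ℓ`-part of an element with a power prime to `ℓ` in a subgroup is in this subgroup -/
theorem lp_mem {A : Type} [Group A] [Finite A] {ℓ : ℕ} [Fact ℓ.Prime] {δ : Subgroup A} {c u : A}
    (h : Lp ℓ c u) {m : ℕ} (hm : m.Coprime ℓ) (hc : c ^ m ∈ δ) : u ∈ δ := by
  obtain ⟨n, hn⟩ := h.el
  set s := u⁻¹ * c with hs
  have hcs : c = u * s := by rw [hs, mul_inv_cancel_left]
  have hus : Commute u s := by
    rw [hs]
    exact (Commute.inv_right (Commute.refl u)).mul_right h.com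
  set r := orderOf s with hr
  have hrc : r.Coprime ℓ := h.reg
  have h1 : c ^ (m * r) = u ^ (m * r) := by
    rw [hcs, hus.mul_pow, mul_comm m r, pow_mul s, pow_orderOf_eq_one, one_pow, mul_one]
  have h2 : u ^ (m * r) ∈ δ := by
    rw [← h1, pow_mul]
    exact δ.pow_mem hc r
  have h3 : (m * r).Coprime (orderOf u) := by
    apply Nat.Coprime.coprime_dvd_right (orderOf_dvd_of_pow_eq_one hn)
    exact (Nat.Coprime.mul_left hm hrc).pow_right n
  obtain ⟨k, hk⟩ := exists_pow_eq_self_of_coprime h3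
  rw [← hk]
  exact δ.pow_mem h2 k

/-- ZPT: an invertible class function is not zero at an element of `C(δ)` with `ℓ`-part in
`Z(δ)`. -/
theorem zpt (psg : T3.PsgStmt) (pug : K9.PugStmt) (dzo : K9.DzoStmt) : ZptStmt := by
  classical
  intro ℓ hℓ M hMx hM A _ _ β hβ δ hδ z hz hinv
  have hF : GoodF ℓ (FF M) := H50.fld ℓ hℓ.out M hM
  obtain ⟨c0, hc0, hmul⟩ := hinv
  let C : Subgroup A := Subgroup.centralizer (δ : Set A)
  have hsup : ∀ a : A → FF M, ∀ x, x ∉ C → br δ a x = 0 := fun a x hx => H66.br_of_not_mem hx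
  have hres : ∀ a : A → FF M, (fun t : C => br δ a t) = fun t : C => a t :=
    fun a => funext fun t => H66.br_of_mem t.2
  have hclC : ∀ a : A → FF M, IsCl a → IsCl (fun t : C => a t) := fun a ha x y => ha x y
  have e1 : mulF (mulF (br δ c0) (br δ z)) (br δ β) = br δ β := by
    rw [← H66.br_mulF hF hδ.pg (H66.IsCl.inv hc0 δ) (H66.IsCl.inv hz δ),
      ← H66.br_mulF hF hδ.pg ((H66.IsCl.inv hc0 δ).mulF (H66.IsCl.inv hz δ))
        (H66.IsCl.inv hβ.1.1 δ), hmul]
  have e2 : mulF (mulF (fun t : C => c0 t) (fun t : C => z t)) (fun t : C => β t) =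
      fun t : C => β t := by
    have h1 : (fun t : C => mulF (mulF (br δ c0) (br δ z)) (br δ β) t) =
        fun t : C => br δ β t := by rw [e1]
    rw [mulF_res C _ (mulF_supp C (hsup c0) (hsup z)), mulF_res C _ (hsup c0), hres, hres,
      hres] at h1
    exact h1
  have hβC : IsIdem (fun t : C => β t) := by
    refine ⟨hclC β hβ.1.1, ?_⟩
    have h1 := H66.br_mulF hF hδ.pg (H66.IsCl.inv hβ.1.1 δ) (H66.IsCl.inv hβ.1.1 δ)
    rw [hβ.1.2] at h1
    have h2 : (fun t : C => br δ β t) = fun t : C => mulF (br δ β) (br δ β) t := by rw [← h1]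
    rw [mulF_res C _ (hsup β), hres] at h2
    exact h2.symm
  obtain ⟨g0, hg0, hg1⟩ := hδ.gd
  obtain ⟨γ, hγ, hβγ, -⟩ := KF.H69.exists_blk hβC (g := (⟨g0, hg0⟩ : C)) hg1
  have e3 : mulF (mulF (fun t : C => c0 t) (fun t : C => z t)) γ = γ := by
    conv_lhs => rw [← hβγ]
    rw [← H20.mulF_assoc, e2, hβγ]
  -- the quotient
  let Z : Subgroup C := δ.subgroupOf C
  have hZc : Z ≤ Subgroup.center C := by
    intro x hx
    rw [Subgroup.mem_center_iff]
    intro g
    apply Subtype.ext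
    exact (Subgroup.mem_centralizer_iff.1 g.2 x (Subgroup.mem_subgroupOf.1 hx)).symm
  have hZn : Z.Normal := by
    refine ⟨fun x hx g => ?_⟩
    have h1 := Subgroup.mem_center_iff.1 (hZc hx) g
    rw [h1, mul_inv_cancel_right]
    exact hx
  let p : C →* C ⧸ Z := QuotientGroup.mk' Z
  have hp : Function.Surjective p := QuotientGroup.mk'_surjective Z
  have hker : p.ker = Z := QuotientGroup.ker_mk' Z
  have hk : IsPGroup ℓ p.ker := by
    rw [hker]
    exact hδ.pg.comap_subtype
  have hblk : IsBlk (push p γ) :=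
    psg ℓ (FF M) hF C (C ⧸ Z) p hp (hker.le.trans hZc) hk γ hγ
  have hgood : ∀ Q : Subgroup (C ⧸ Z), IsPGroup ℓ Q → Gd (push p γ) Q → Q = ⊥ := by
    intro Q hQ hg
    have h1 : IsPGroup ℓ (Q.comap p) := (isPGroup_comap_iff hp hk Q).2 hQ
    have h2 : (Q.comap p).map p = Q := Subgroup.map_comap_eq_self_of_surjective hp Q
    have h3 : Gd γ (Q.comap p) := by
      refine (pug ℓ (FF M) hF C (C ⧸ Z) p hp hk γ hγ.1 _ (Subgroup.ker_le_comap p Q) h1).2 ?_
      rw [h2]
      exact hg
    obtain ⟨t, ht1, ht2⟩ := gd_of_mul hF hβC.1 hγ.1.1 hβγ h1 h3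
    have hR : IsPGroup ℓ ((Q.comap p).map C.subtype ⊔ δ : Subgroup A) := by
      refine IsPGroup.to_sup_of_normal_right' (h1.map C.subtype) hδ.pg ?_
      refine le_trans ?_ (Subgroup.centralizer_le_normalizer (δ : Set A))
      rintro _ ⟨y, _, rfl⟩
      exact y.2
    have hle : ((Q.comap p).map C.subtype ⊔ δ : Subgroup A) ≤
        Subgroup.centralizer ({(t : A)} : Set A) := by
      apply sup_le
      · rintro _ ⟨y, hy, rfl⟩
        rw [Subgroup.mem_centralizer_singleton_iff]
        exact congrArg Subtype.val (Subgroup.mem_centralizer_iff.1 ht1 y hy)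
      · intro y hy
        rw [Subgroup.mem_centralizer_singleton_iff]
        exact Subgroup.mem_centralizer_iff.1 t.2 y hy
    have hg2 : Gd β ((Q.comap p).map C.subtype ⊔ δ : Subgroup A) := by
      refine ⟨t, ?_, ht2⟩
      rw [Subgroup.mem_centralizer_iff]
      intro x hx
      exact Subgroup.mem_centralizer_singleton_iff.1 (hle hx)
    have h4 := hδ.mx _ hR hg2
    have h5 : δ = ((Q.comap p).map C.subtype ⊔ δ : Subgroup A) :=
      Subgroup.eq_of_le_of_card_ge le_sup_right h4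
    have h6 : Q.comap p ≤ Z := by
      intro x hx
      rw [Subgroup.mem_subgroupOf, h5]
      exact (le_sup_left : (Q.comap p).map C.subtype ≤ _) ⟨x, hx, rfl⟩
    rw [← h2, eq_bot_iff]
    rintro _ ⟨x, hx, rfl⟩
    rw [Subgroup.mem_bot, ← MonoidHom.mem_ker, hker]
    exact h6 hx
  obtain ⟨κ, hκ, hrc⟩ := dzo ℓ M hM (C ⧸ Z) (push p γ) hblk hgood
  have hκ1 : κ ∈ IrrE M (push p γ) := by
    rw [hκ]
    exact Set.mem_singleton κ
  have e4 : mulF (mulF (push p (fun t : C => c0 t)) (push p (fun t : C => z t))) (push p γ) =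
      push p γ := by
    rw [← push_mulF, ← push_mulF, e3]
  have hft := Fintype.ofFinite (C ⧸ Z)
  have hcl1 := push_isCl hp (hclC c0 hc0)
  have hcl2 := push_isCl hp (hclC z hz)
  have hne : res M (push p (fun t : C => z t)) κ ≠ 0 := by
    intro h0
    have h1 := H50.res_mul (M := M) (isCl_mulF hcl1 hcl2) hblk.1.1 hκ1.1
    rw [e4, H50.res_mul (M := M) hcl1 hcl2 hκ1.1, h0, mul_zero, zero_mul, hκ1.2] at h1
    exact one_ne_zero h1
  obtain ⟨cl, hcl⟩ : ∃ cl : ConjClasses (C ⧸ Z), push p (fun t : C => z t) (Quotient.out cl) *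
      red M (omega (MonoidHom.id (C ⧸ Z)) κ (Quotient.out cl)) ≠ 0 := by
    by_contra hcon
    push Not at hcon
    apply hne
    unfold res
    exact finsum_eq_zero_of_forall_eq_zero hcon
  set x : C ⧸ Z := Quotient.out cl with hx
  have hx1 : push p (fun t : C => z t) x ≠ 0 := left_ne_zero_of_mul hcl
  have hx2 : red M (omega (MonoidHom.id (C ⧸ Z)) κ x) ≠ 0 := right_ne_zero_of_mul hcl
  have hxr : Reg ℓ x := by
    by_contra hcon
    apply hx2
    have h1 : omega (MonoidHom.id (C ⧸ Z)) κ x = 0 := by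
      unfold omega
      have h2 : (∑ᶠ (h : C ⧸ Z) (_ : IsConj x (MonoidHom.id (C ⧸ Z) h)), κ h) = 0 := by
        apply finsum_eq_zero_of_forall_eq_zero
        intro h
        rw [finsum_eq_if]
        split_ifs with hh
        swap
        · rfl
        obtain ⟨y, hy⟩ := isConj_iff.1 hh
        change y * x * y⁻¹ = h at hy
        rw [← hy, hrc.cl]
        exact hrc.sg x hcon
      rw [h2, zero_div]
    rw [h1, red_zero]
  obtain ⟨y, hy1, hy2⟩ : ∃ y : C, p y = x ∧ z (y : A) ≠ 0 := by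
    by_contra hcon
    push Not at hcon
    apply hx1
    unfold push
    apply finsum_eq_zero_of_forall_eq_zero
    intro y
    rw [finsum_eq_if]
    split_ifs with hy
    · exact hcon y hy
    · rfl
  refine ⟨y, y.2, hy2, fun u' hu' => ?_⟩
  refine lp_mem hu' (m := orderOf x) hxr ?_
  have h1 : p (y ^ orderOf x) = 1 := by rw [map_pow, hy1, pow_orderOf_eq_one]
  have h2 : y ^ orderOf x ∈ Z := hker.le h1
  exact Subgroup.mem_subgroupOf.1 h2

end Pool.Agent.PP.T5.H18Z
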